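import Pool.Agent.Y560.TG.Stm

set_option autoImplicit false

/-! Project TG (helper560), job BP: Borel families of pairwise non-isomorphic pointed
structures. -/

namespace Pool.Agent.Y117.TG

open Set MeasureTheory
open Pool.Agent.Y560.TG
open Pool.Agent.H899R2.VP (St Adj PIso BF IsoOn idOn inv comp zipSet few_base)
open Pool.Agent.H533R2.VO (RS lift put OS Ic RIso Dich VC BlkV S_FINAL)
open Pool.Agent.H566P (ar R2 v2 a0 a1 lt ac co mk)

/-- Every uncountable standard Borel family contains a continuous Cantor family. -/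
theorem cantor_of_unc {Ω X : Type} [MeasurableSpace Ω] [StandardBorelSpace Ω]
    [TopologicalSpace X] [SecondCountableTopology X] [MeasurableSpace X] [BorelSpace X]
    (h : ¬ Countable Ω) (Ψ : Ω → X) (hΨ : Measurable Ψ) :
    ∃ f : (ℕ → Bool) → Ω, Function.Injective f ∧ Continuous (Ψ ∘ f) := by
  let := upgradeStandardBorel Ω
  obtain ⟨t', ht', hc, hP⟩ := hΨ.exists_continuous
  have hu : ¬ (univ : Set Ω).Countable := fun h' => h (countable_univ_iff.1 h')
  obtain ⟨f, -, hf, hfi⟩ :=
    @IsClosed.exists_nat_bool_injection_of_not_countable Ω t' hP univ (@isClosed_univ Ω t') hu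
  exact ⟨f, hfi, @Continuous.comp _ _ _ _ t' _ _ _ hc hf⟩

theorem t_BP : S_BP := by
  intro K hK few Ω _ _ hΩ Φ b hΦ hb hmem hinj
  -- an uncountable fibre of `b`
  obtain ⟨n, hn⟩ : ∃ n, ¬ Countable {ω | b ω = n} := by
    by_contra hc
    push Not at hc
    apply hΩ
    have h1 : (univ : Set Ω) = ⋃ n, {ω | b ω = n} := by
      ext ω
      simp
    rw [← countable_univ_iff, h1]
    exact countable_iUnion fun n => (hc n)
  have hm : MeasurableSet {ω | b ω = n} := hb (measurableSet_singleton n)
  have : StandardBorelSpace {ω | b ω = n} := hm.standardBorel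
  obtain ⟨f, hfi, hfc⟩ := cantor_of_unc hn (fun ω : {ω | b ω = n} => Φ ω)
    (hΦ.comp measurable_subtype_coe)
  have hlc : Continuous (lift : R2 → St ar) := continuous_const.prodMk continuous_id
  have hKm : MeasurableSet {M : St ar | M.1 = (fun _ _ => false) ∧ M.2 ∈ K} := by
    have e1 : {M : St ar | M.1 = (fun _ _ => false) ∧ M.2 ∈ K} =
        (Prod.fst ⁻¹' {fun _ _ => false}) ∩ (Prod.snd ⁻¹' K) := rfl
    rw [e1]
    exact (measurable_fst (measurableSet_singleton _)).inter (measurable_snd hK)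
  refine few_base hKm ?_ (F := {n}) (finite_singleton n)
    (fun A => lift (Φ (f A))) ?_ ?_ ?_
  · rintro ⟨k, hkc, hkK, hkd⟩
    refine few ⟨fun A => (k A).2, continuous_snd.comp hkc, fun A => (hkK A).2, ?_⟩
    intro A A' hAA
    refine hkd A A' ?_
    have h7 : ∀ A, k A = lift (k A).2 := by
      intro A
      exact Prod.ext (hkK A).1 rfl
    have h8 := riso_isoOn.1 hAA
    rw [← h7 A, ← h7 A'] at h8
    exact h8
  · exact hlc.comp hfc
  · intro A
    exact ⟨rfl, hmem _⟩
  · intro A A' hAA
    have e1 : b (f A) = n := (f A).2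
    have e2 : b (f A') = n := (f A').2
    have h1 : ({(b (f A), b (f A'))} : Set (ℕ × ℕ)) ⊆ idOn ({n} : Set ℕ) := by
      rintro _ rfl
      rw [e1, e2]
      exact ⟨rfl, rfl⟩
    exact hfi (Subtype.ext (hinj _ _ (hAA.mono h1)))

end Pool.Agent.Y117.TG
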